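import Pool.Agent.Helper54_AK.F5Exact

set_option autoImplicit false

/-!
# F5: the dbar of the approximation, the estimate
-/

namespace Pool.Agent.AK.H54

open Complex Finset

theorem CS.qf {V : Set C2} {s : ℕ} {c : ℕ → C2 → ℂ} (hc : ∀ k, CS V s (c k)) :
    ∀ j k, CS V s (qf c j k) := by
  intro j
  induction j with
  | zero => intro k; exact CS.const _
  | succ j ih =>
    intro k
    exact CS.mul (CS.const _) (CS.sum fun i _ => CS.mul (hc i) (ih (k - i)))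

theorem sum_shift1 (N : ℕ) (g : ℕ → ℝ) : ∑ j ∈ Icc 1 N, g j = ∑ j ∈ range N, g (j + 1) := by
  rw [Finset.range_eq_Ico, Finset.sum_Ico_add' g 0 N 1]
  exact Finset.sum_congr (by ext x; simp only [Finset.mem_Icc, Finset.mem_Ico]; omega)
    fun _ _ => rfl

/-- a double sum with bounded coefficients -/
theorem Bd.sum2 {V : Set C2} (J : ℕ) (a : ℕ → ℕ → C2 → ℂ) (ha : ∀ k j, Bd V (a k j)) :
    ∃ C : ℝ, 0 ≤ C ∧ ∀ p ∈ V, ∀ Z : ℕ → ℕ → ℂ,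
      ‖∑ k ∈ Icc 1 J, ∑ j ∈ Icc 1 k, a k j p * Z k j‖ ≤
        C * ∑ k ∈ range (J + 1), ∑ j ∈ Icc 1 J, ‖Z k j‖ := by
  obtain ⟨C, h1, h2⟩ := Bd.sum_le ((Icc 1 J).sigma fun k => Icc 1 k)
    (fun x : Σ _ : ℕ, ℕ => a x.1 x.2) fun x _ => ha x.1 x.2
  refine ⟨C, h1, fun p hp Z => ?_⟩
  have h3 := h2 p hp fun x => Z x.1 x.2
  rw [Finset.sum_sigma, Finset.sum_sigma] at h3
  refine h3.trans (mul_le_mul_of_nonneg_left ?_ h1)
  calc ∑ k ∈ Icc 1 J, ∑ j ∈ Icc 1 k, ‖Z k j‖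
      ≤ ∑ k ∈ Icc 1 J, ∑ j ∈ Icc 1 J, ‖Z k j‖ := by
        refine Finset.sum_le_sum fun k hk => ?_
        refine Finset.sum_le_sum_of_subset_of_nonneg ?_ fun _ _ _ => norm_nonneg _
        exact Finset.Icc_subset_Icc le_rfl (Finset.mem_Icc.1 hk).2
    _ ≤ _ := by
        refine Finset.sum_le_sum_of_subset_of_nonneg ?_ fun _ _ _ =>
          Finset.sum_nonneg fun _ _ => norm_nonneg _
        intro x hx
        have := Finset.mem_Icc.1 hx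
        exact Finset.mem_range.2 (by omega)

/-- the estimate for one component -/
theorem comp (h4 : F4Stmt) (h5a : F5aStmt) (h6 : L6Stmt) (h1a : F1aStmt) {Ω : Set C2}
    {ρ : C2 → ℝ} {f : C2 → ℂ} {k0 : ℕ} {B : ℝ}
    {V : Set C2} {t0 c2 : ℝ} (hA : SetA Ω ρ f k0 B V t0 c2) {J : ℕ} {c : ℕ → C2 → ℂ} {K' : ℝ}
    {K : ℂ → ℂ} {h : ℕ → ℕ → ℂ → ℂ} (hJ : 1 ≤ J) (hT : Tow ρ V J (k0 + 1) c K') (hK : Ker J K h)
    (i : Fin 2) :
    ∃ C : ℝ, 0 ≤ C ∧ ∀ ε : ℝ, 0 < ε → ε < t0 → ∀ p ∈ Veps ρ V ε,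
      ‖dzb i (Feps ρ f c t0 ε J K h) p - Main ρ f c t0 ε J h i p‖ ≤
        C * ((∑ k ∈ Finset.Icc J (J + 1), ∑ j ∈ Finset.Icc 1 (J + 2),
                ‖Ik ρ f (c 0) t0 ε k (h k j) p‖)
          + ‖bk ρ f (c 0) t0 ε 0 K p‖
          + ∑ k ∈ Finset.range (J + 1), ∑ j ∈ Finset.Icc 1 J,
              (‖bk ρ f (c 0) t0 ε k (h k j) p‖
              + ‖bk ρ f (c 0) t0 ε (k - 1) (fun y => exp (-y) * h k j y) p‖)) := by
  have hΩ : IsOpen Ω := by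
    rw [hA.dom.eq]
    exact isOpen_lt hA.dom.smooth.continuous continuous_const
  have hcp := hA.geo.cpt
  have hρ : ContDiff ℝ SM ρ := hA.dom.smooth
  obtain ⟨-, hn, ht, -, -⟩ := h1a Ω ρ f hΩ hρ hA.bf.hol
  have hsub : closure V ⊆ {p | g2 ρ p ≠ 0} := fun p hp => hA.geo.g2ne p hp
  have bA : Bd V (fA ρ i) := Bd.of_cont hcp hsub (fA_cont ht hn i)
  have bB : Bd V (fB ρ i) := Bd.of_cont hcp hsub (fB_cont hρ ht hn i)
  have bC : Bd V (fC ρ i) := Bd.of_cont hcp hsub (fC_cont ht i)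
  have bE : Bd V (fE ρ i) := Bd.of_cont hcp hsub (fE_cont hρ ht hn i)
  have hqf := CS.qf hT.sm
  have bq : ∀ j k, Bd V (qf c j k) := fun j k => CS.bd hcp (hqf j k)
  have bdq : ∀ j k, Bd V (dzb i (qf c j k)) := fun j k => CS.bd_dzb hcp (hqf j k) (by omega) i
  have bdc : Bd V (dzb i (c 0)) := CS.bd_dzb hcp (hT.sm 0) (by omega) i
  have bx : ∀ a : ℂ, Bd V (fun p => exp (a * c 0 p)) := fun a =>
    CS.bd hcp (CS.exp (CS.mul (CS.const a) (hT.sm 0)))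
  have bxn : Bd V (fun p => exp (-c 0 p)) := by
    have := bx (-1)
    simpa using this
  -- the coefficients
  obtain ⟨C1, g1, e1⟩ := Bd.sum_le (V := V) (range (J + 2))
    (fun j p => exp ((J : ℂ) * c 0 p) * (dzb i (qf c (j + 1) J) p
          + (J : ℂ) * (fE ρ i p - fA ρ i p) * qf c (j + 1) J p
          + (fA ρ i p + dzb i (c 0) p) * qf c j J p
          + fB ρ i p * (qf c j (J - 1) p - ((J : ℂ) - 1) * qf c (j + 1) (J - 1) p)))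
    (fun j _ => (bx _).mul ((((bdq _ _).add (((Bd.const _).mul (bE.sub bA)).mul (bq _ _))).add
      ((bA.add bdc).mul (bq _ _))).add (bB.mul ((bq _ _).sub ((Bd.const _).mul (bq _ _))))))
  obtain ⟨C2, g2', e2⟩ := Bd.sum_le (V := V) (range (J + 2))
    (fun j p => exp (((J + 1 : ℕ) : ℂ) * c 0 p) *
          (fB ρ i p * (qf c j J p - (J : ℂ) * qf c (j + 1) J p)))
    (fun j _ => (bx _).mul (bB.mul ((bq _ _).sub ((Bd.const _).mul (bq _ _)))))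
  obtain ⟨C3, e3⟩ := bA
  have bA : Bd V (fA ρ i) := ⟨C3, e3⟩
  obtain ⟨C4, g4, e4⟩ := Bd.sum2 (V := V) J
    (fun k j p => exp ((k : ℂ) * c 0 p) * qf c j k p * fA ρ i p)
    (fun k j => ((bx _).mul (bq _ _)).mul bA)
  obtain ⟨C5, g5, e5⟩ := Bd.sum2 (V := V) J
    (fun k j p => exp ((k : ℂ) * c 0 p) * qf c j k p * ((k : ℂ) * fC ρ i p * exp (-c 0 p)))
    (fun k j => ((bx _).mul (bq _ _)).mul (((Bd.const _).mul bC).mul bxn))
  refine ⟨C1 + C2 + |C3| + C4 + C5, by positivity, fun ε h0 h1 p hp => ?_⟩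
  rw [exact h4 h5a h6 h1a hA hJ hT hK h0 h1 hp i]
  have f1 := e1 p hp.1 fun j => Ik ρ f (c 0) t0 ε J (h J (j + 1)) p
  have f2 := e2 p hp.1 fun j => Ik ρ f (c 0) t0 ε (J + 1) (h (J + 1) (j + 1)) p
  have f3 : ‖fA ρ i p * bk ρ f (c 0) t0 ε 0 K p‖ ≤ |C3| * ‖bk ρ f (c 0) t0 ε 0 K p‖ := by
    rw [norm_mul]
    exact mul_le_mul_of_nonneg_right ((e3 p hp.1).trans (le_abs_self _)) (norm_nonneg _)
  have f4 := e4 p hp.1 fun k j => bk ρ f (c 0) t0 ε k (h k j) p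
  have f5 := e5 p hp.1 fun k j => bk ρ f (c 0) t0 ε (k - 1) (fun y => exp (-y) * h k j y) p
  have s1 : ∑ k ∈ Finset.Icc J (J + 1), ∑ j ∈ Finset.Icc 1 (J + 2),
      ‖Ik ρ f (c 0) t0 ε k (h k j) p‖ =
      ∑ j ∈ range (J + 2), ‖Ik ρ f (c 0) t0 ε J (h J (j + 1)) p‖ +
      ∑ j ∈ range (J + 2), ‖Ik ρ f (c 0) t0 ε (J + 1) (h (J + 1) (j + 1)) p‖ := by
    rw [Finset.sum_Icc_succ_top (by omega), Finset.Icc_self, Finset.sum_singleton,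
      sum_shift1, sum_shift1]
  have s2 : ∑ k ∈ Finset.range (J + 1), ∑ j ∈ Finset.Icc 1 J,
      (‖bk ρ f (c 0) t0 ε k (h k j) p‖
        + ‖bk ρ f (c 0) t0 ε (k - 1) (fun y => exp (-y) * h k j y) p‖) =
      ∑ k ∈ Finset.range (J + 1), ∑ j ∈ Finset.Icc 1 J, ‖bk ρ f (c 0) t0 ε k (h k j) p‖
      + ∑ k ∈ Finset.range (J + 1), ∑ j ∈ Finset.Icc 1 J,
        ‖bk ρ f (c 0) t0 ε (k - 1) (fun y => exp (-y) * h k j y) p‖ := by
    rw [← Finset.sum_add_distrib]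
    exact Finset.sum_congr rfl fun k _ => Finset.sum_add_distrib
  rw [s1, s2]
  have n1 : 0 ≤ ∑ j ∈ range (J + 2), ‖Ik ρ f (c 0) t0 ε J (h J (j + 1)) p‖ :=
    Finset.sum_nonneg fun _ _ => norm_nonneg _
  have n2 : 0 ≤ ∑ j ∈ range (J + 2), ‖Ik ρ f (c 0) t0 ε (J + 1) (h (J + 1) (j + 1)) p‖ :=
    Finset.sum_nonneg fun _ _ => norm_nonneg _
  have n3 := norm_nonneg (bk ρ f (c 0) t0 ε 0 K p)
  have n4 : 0 ≤ ∑ k ∈ Finset.range (J + 1), ∑ j ∈ Finset.Icc 1 J,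
      ‖bk ρ f (c 0) t0 ε k (h k j) p‖ :=
    Finset.sum_nonneg fun _ _ => Finset.sum_nonneg fun _ _ => norm_nonneg _
  have n5 : 0 ≤ ∑ k ∈ Finset.range (J + 1), ∑ j ∈ Finset.Icc 1 J,
      ‖bk ρ f (c 0) t0 ε (k - 1) (fun y => exp (-y) * h k j y) p‖ :=
    Finset.sum_nonneg fun _ _ => Finset.sum_nonneg fun _ _ => norm_nonneg _
  refine (norm_add_le _ _).trans ((add_le_add ((norm_add_le _ _).trans (add_le_add
    ((norm_add_le _ _).trans (add_le_add ((norm_add_le _ _).trans (add_le_add f1 f2)) f3))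
    f4)) f5).trans ?_)
  have a3 := abs_nonneg C3
  set P1 := ∑ j ∈ range (J + 2), ‖Ik ρ f (c 0) t0 ε J (h J (j + 1)) p‖ with hP1
  set P2 := ∑ j ∈ range (J + 2), ‖Ik ρ f (c 0) t0 ε (J + 1) (h (J + 1) (j + 1)) p‖ with hP2
  set P3 := ‖bk ρ f (c 0) t0 ε 0 K p‖ with hP3
  set P4 := ∑ k ∈ Finset.range (J + 1), ∑ j ∈ Finset.Icc 1 J,
      ‖bk ρ f (c 0) t0 ε k (h k j) p‖ with hP4
  set P5 := ∑ k ∈ Finset.range (J + 1), ∑ j ∈ Finset.Icc 1 J,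
      ‖bk ρ f (c 0) t0 ε (k - 1) (fun y => exp (-y) * h k j y) p‖ with hP5
  have t1 : C1 * P1 ≤ C1 * (P1 + P2 + P3 + (P4 + P5)) :=
    mul_le_mul_of_nonneg_left (by linarith) g1
  have t2 : C2 * P2 ≤ C2 * (P1 + P2 + P3 + (P4 + P5)) :=
    mul_le_mul_of_nonneg_left (by linarith) g2'
  have t3 : |C3| * P3 ≤ |C3| * (P1 + P2 + P3 + (P4 + P5)) :=
    mul_le_mul_of_nonneg_left (by linarith) a3
  have t4 : C4 * P4 ≤ C4 * (P1 + P2 + P3 + (P4 + P5)) :=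
    mul_le_mul_of_nonneg_left (by linarith) g4
  have t5 : C5 * P5 ≤ C5 * (P1 + P2 + P3 + (P4 + P5)) :=
    mul_le_mul_of_nonneg_left (by linarith) g5
  calc C1 * P1 + C2 * P2 + |C3| * P3 + C4 * P4 + C5 * P5
      ≤ C1 * (P1 + P2 + P3 + (P4 + P5)) + C2 * (P1 + P2 + P3 + (P4 + P5))
        + |C3| * (P1 + P2 + P3 + (P4 + P5)) + C4 * (P1 + P2 + P3 + (P4 + P5))
        + C5 * (P1 + P2 + P3 + (P4 + P5)) := by linarith
    _ = (C1 + C2 + |C3| + C4 + C5) * (P1 + P2 + P3 + (P4 + P5)) := by ring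

/-- F5 -/
theorem f5 (h4 : F4Stmt) (h5a : F5aStmt) (h6 : L6Stmt) (h1a : F1aStmt) : F5Stmt := by
  intro Ω ρ f k0 B V t0 c2 hA J c K' K h hJ hT hK
  obtain ⟨C, g, e⟩ := comp h4 h5a h6 h1a hA hJ hT hK 0
  obtain ⟨C', g', e'⟩ := comp h4 h5a h6 h1a hA hJ hT hK 1
  refine ⟨C + C', fun ε h0 h1 p hp i => ?_⟩
  have hR : 0 ≤ ((∑ k ∈ Finset.Icc J (J + 1), ∑ j ∈ Finset.Icc 1 (J + 2),
                ‖Ik ρ f (c 0) t0 ε k (h k j) p‖)
          + ‖bk ρ f (c 0) t0 ε 0 K p‖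
          + ∑ k ∈ Finset.range (J + 1), ∑ j ∈ Finset.Icc 1 J,
              (‖bk ρ f (c 0) t0 ε k (h k j) p‖
              + ‖bk ρ f (c 0) t0 ε (k - 1) (fun y => exp (-y) * h k j y) p‖)) :=
    add_nonneg (add_nonneg (Finset.sum_nonneg fun _ _ => Finset.sum_nonneg fun _ _ =>
      norm_nonneg _) (norm_nonneg _)) (Finset.sum_nonneg fun _ _ => Finset.sum_nonneg fun _ _ =>
      add_nonneg (norm_nonneg _) (norm_nonneg _))
  have hi : i = 0 ∨ i = 1 := by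
    fin_cases i
    · exact Or.inl rfl
    · exact Or.inr rfl
  rcases hi with rfl | rfl
  · refine (e ε h0 h1 p hp).trans (mul_le_mul_of_nonneg_right (by linarith) hR)
  · refine (e' ε h0 h1 p hp).trans (mul_le_mul_of_nonneg_right (by linarith) hR)

end Pool.Agent.AK.H54
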