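import Mathlib

set_option autoImplicit false

/-!
# F5, second part: the algebra of the sums
-/

namespace Pool.Agent.AK.H54

open Complex Finset

/-- one row of the rearrangement -/
theorem row (A B C E d0 : ℂ) (u v w x : ℕ → ℂ) : ∀ J : ℕ,
    ∑ k ∈ range (J + 1), ((w k + k * (E - A) * u k) * x k + (A + d0) * v k * x k
      + B * (v k - k * u k) * x (k + 1) + k * C * u k * x (k - 1)) =
    ∑ k ∈ range J, (w k + k * (E - A) * u k + (A + d0) * v k
      + (if k = 0 then 0 else B * (v (k - 1) - ((k : ℂ) - 1) * u (k - 1)))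
      + ((k : ℂ) + 1) * C * u (k + 1)) * x k
    + (w J + J * (E - A) * u J + (A + d0) * v J
      + (if J = 0 then 0 else B * (v (J - 1) - ((J : ℂ) - 1) * u (J - 1)))) * x J
    + B * (v J - J * u J) * x (J + 1) := by
  intro J
  induction J with
  | zero =>
    simp
    ring
  | succ J ih =>
    rw [Finset.sum_range_succ, ih, Finset.sum_range_succ _ J]
    rw [if_neg (Nat.succ_ne_zero J)]
    simp only [Nat.add_sub_cancel]
    push_cast
    ring

/-- shifting the index of a sum whose first term vanishes -/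
theorem shift_sum {N : ℕ} {g : ℕ → ℂ} (h0 : g 0 = 0) (hN : g N = 0) :
    ∑ j ∈ range N, g j = ∑ j ∈ range N, g (j + 1) := by
  have h1 := Finset.sum_range_succ' g N
  have h2 := Finset.sum_range_succ g N
  rw [h0, add_zero] at h1
  rw [hN, add_zero] at h2
  rw [← h2, h1]

/-- the rearrangement -/
theorem rearr (A B C E d0 : ℂ) (q dq S X : ℕ → ℕ → ℂ) (J N : ℕ) (hJ : 1 ≤ J) (hN : J + 2 ≤ N)
    (hq : ∀ j k, k < j → q j k = 0) (hq0 : ∀ k, k ≠ 0 → q 0 k = 0)
    (hd : ∀ j k, k < j → dq j k = 0) (hd0 : ∀ k, dq 0 k = 0)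
    (hid : ∀ j k, dq (j + 1) k + k * (E - A) * q (j + 1) k + (A + d0) * q j k
      + (if k = 0 then 0 else B * (q j (k - 1) - ((k : ℂ) - 1) * q (j + 1) (k - 1)))
      + ((k : ℂ) + 1) * C * q (j + 1) (k + 1) = S j k) :
    ∑ k ∈ range (J + 1), ∑ j ∈ range N, ((dq j k + k * (E - A) * q j k) * X k j
      + (A + d0) * q j k * X k (j + 1) + B * q j k * (X (k + 1) (j + 1) - k * X (k + 1) j)
      + k * C * q j k * X (k - 1) j) =
    ∑ k ∈ range J, ∑ j ∈ range N, S j k * X k (j + 1)
    + ∑ j ∈ range N, (dq (j + 1) J + J * (E - A) * q (j + 1) J + (A + d0) * q j J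
      + B * (q j (J - 1) - ((J : ℂ) - 1) * q (j + 1) (J - 1))) * X J (j + 1)
    + ∑ j ∈ range N, B * (q j J - J * q (j + 1) J) * X (J + 1) (j + 1) := by
  have step : ∀ k ∈ range (J + 1), ∑ j ∈ range N, ((dq j k + k * (E - A) * q j k) * X k j
      + (A + d0) * q j k * X k (j + 1) + B * q j k * (X (k + 1) (j + 1) - k * X (k + 1) j)
      + k * C * q j k * X (k - 1) j) =
      ∑ j ∈ range N, ((dq (j + 1) k + k * (E - A) * q (j + 1) k) * X k (j + 1)
      + (A + d0) * q j k * X k (j + 1) + B * (q j k - k * q (j + 1) k) * X (k + 1) (j + 1)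
      + k * C * q (j + 1) k * X (k - 1) (j + 1)) := by
    intro k hk
    have hk' : k < N := by
      have := Finset.mem_range.1 hk
      omega
    have hkq : (k : ℂ) * q 0 k = 0 := by
      rcases Nat.eq_zero_or_pos k with rfl | h
      · simp
      · rw [hq0 k h.ne', mul_zero]
    have hG := shift_sum (N := N) (g := fun j => (dq j k + k * (E - A) * q j k) * X k j
      - B * (k * q j k) * X (k + 1) j + k * C * q j k * X (k - 1) j) (by
        show (dq 0 k + k * (E - A) * q 0 k) * X k 0
          - B * (k * q 0 k) * X (k + 1) 0 + k * C * q 0 k * X (k - 1) 0 = 0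
        rw [hd0 k]
        linear_combination ((E - A) * X k 0 - B * X (k + 1) 0 + C * X (k - 1) 0) * hkq) (by
        show (dq N k + k * (E - A) * q N k) * X k N
          - B * (k * q N k) * X (k + 1) N + k * C * q N k * X (k - 1) N = 0
        rw [hd N k hk', hq N k hk']
        ring)
    have e1 : ∀ j, ((dq j k + k * (E - A) * q j k) * X k j
      + (A + d0) * q j k * X k (j + 1) + B * q j k * (X (k + 1) (j + 1) - k * X (k + 1) j)
      + k * C * q j k * X (k - 1) j) = ((dq j k + k * (E - A) * q j k) * X k j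
      - B * (k * q j k) * X (k + 1) j + k * C * q j k * X (k - 1) j) +
      ((A + d0) * q j k * X k (j + 1) + B * q j k * X (k + 1) (j + 1)) := fun j => by ring
    have e2 : ∀ j, ((dq (j + 1) k + k * (E - A) * q (j + 1) k) * X k (j + 1)
      + (A + d0) * q j k * X k (j + 1) + B * (q j k - k * q (j + 1) k) * X (k + 1) (j + 1)
      + k * C * q (j + 1) k * X (k - 1) (j + 1)) =
      ((dq (j + 1) k + k * (E - A) * q (j + 1) k) * X k (j + 1)
      - B * (k * q (j + 1) k) * X (k + 1) (j + 1) + k * C * q (j + 1) k * X (k - 1) (j + 1)) +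
      ((A + d0) * q j k * X k (j + 1) + B * q j k * X (k + 1) (j + 1)) := fun j => by ring
    rw [Finset.sum_congr rfl fun j _ => e1 j, Finset.sum_congr rfl fun j _ => e2 j]
    exact Finset.sum_add_distrib.trans ((congrArg₂ (· + ·) hG rfl).trans
      Finset.sum_add_distrib.symm)
  rw [Finset.sum_congr rfl step, Finset.sum_comm]
  have h3 : ∀ j ∈ range N, ∑ k ∈ range (J + 1),
      ((dq (j + 1) k + k * (E - A) * q (j + 1) k) * X k (j + 1)
      + (A + d0) * q j k * X k (j + 1) + B * (q j k - k * q (j + 1) k) * X (k + 1) (j + 1)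
      + k * C * q (j + 1) k * X (k - 1) (j + 1)) =
      ∑ k ∈ range J, S j k * X k (j + 1)
      + (dq (j + 1) J + J * (E - A) * q (j + 1) J + (A + d0) * q j J
        + B * (q j (J - 1) - ((J : ℂ) - 1) * q (j + 1) (J - 1))) * X J (j + 1)
      + B * (q j J - J * q (j + 1) J) * X (J + 1) (j + 1) := by
    intro j _
    have h4 := row A B C E d0 (fun k => q (j + 1) k) (fun k => q j k) (fun k => dq (j + 1) k)
      (fun k => X k (j + 1)) J
    beta_reduce at h4
    rw [h4, if_neg (by omega : J ≠ 0)]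
    congr 2
    refine Finset.sum_congr rfl fun k _ => ?_
    rw [hid j k]
  rw [Finset.sum_congr rfl h3, Finset.sum_add_distrib, Finset.sum_add_distrib,
    Finset.sum_comm (s := range N) (t := range J)]

end Pool.Agent.AK.H54
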