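import Pool.Agent.Helper54_AK.F5a

set_option autoImplicit false

/-!
# F5, first part: bounded coefficients, linearity of the integrals
-/

namespace Pool.Agent.AK.H54

open Complex Finset

/-! ### Derivatives -/

theorem one_le_SM : (1 : WithTop ℕ∞) ≤ SM := WithTop.coe_le_coe.2 le_top

theorem dzb_exp (i : Fin 2) (a : ℂ) {u : C2 → ℂ} {p : C2} (hu : DifferentiableAt ℝ u p) :
    dzb i (fun q => exp (a * u q)) p = exp (a * u p) * (a * dzb i u p) := by
  have h : HasFDerivAt (fun q => exp (a * u q)) (exp (a * u p) • (a • fderiv ℝ u p)) p :=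
    (hu.hasFDerivAt.const_mul a).cexp
  unfold dzb
  rw [h.fderiv]
  simp only [smul_apply, smul_eq_mul]
  ring

theorem dzb_add (i : Fin 2) {u v : C2 → ℂ} {p : C2} (hu : DifferentiableAt ℝ u p)
    (hv : DifferentiableAt ℝ v p) :
    dzb i (fun q => u q + v q) p = dzb i u p + dzb i v p := by
  unfold dzb
  rw [fderiv_fun_add hu hv]
  simp only [add_apply, smul_eq_mul]
  ring

/-! ### Functions of class C^s near the closure -/

section CSs

variable {V : Set C2} {s : ℕ}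

theorem CS.const (a : ℂ) : CS V s (fun _ => a) :=
  ⟨Set.univ, isOpen_univ, Set.subset_univ _, contDiffOn_const⟩

theorem CS.mul {u v : C2 → ℂ} (hu : CS V s u) (hv : CS V s v) : CS V s (fun p => u p * v p) := by
  obtain ⟨U, h1, h2, h3⟩ := hu
  obtain ⟨W, k1, k2, k3⟩ := hv
  exact ⟨U ∩ W, h1.inter k1, Set.subset_inter h2 k2,
    (h3.mono Set.inter_subset_left).mul (k3.mono Set.inter_subset_right)⟩

theorem CS.add {u v : C2 → ℂ} (hu : CS V s u) (hv : CS V s v) : CS V s (fun p => u p + v p) := by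
  obtain ⟨U, h1, h2, h3⟩ := hu
  obtain ⟨W, k1, k2, k3⟩ := hv
  exact ⟨U ∩ W, h1.inter k1, Set.subset_inter h2 k2,
    (h3.mono Set.inter_subset_left).add (k3.mono Set.inter_subset_right)⟩

theorem CS.sum {ι : Type} {S : Finset ι} {u : ι → C2 → ℂ} (hu : ∀ m ∈ S, CS V s (u m)) :
    CS V s (fun p => ∑ m ∈ S, u m p) := by
  classical
  induction S using Finset.induction_on with
  | empty => simpa using CS.const 0
  | insert a S ha ih =>
    simp only [Finset.sum_insert ha]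
    exact CS.add (hu a (Finset.mem_insert_self a S))
      (ih fun m hm => hu m (Finset.mem_insert_of_mem hm))

theorem CS.exp {u : C2 → ℂ} (hu : CS V s u) : CS V s (fun p => exp (u p)) := by
  obtain ⟨U, h1, h2, h3⟩ := hu
  exact ⟨U, h1, h2, h3.cexp⟩

theorem CS.mono {u : C2 → ℂ} {r : ℕ} (hu : CS V s u) (h : r ≤ s) : CS V r u := by
  obtain ⟨U, h1, h2, h3⟩ := hu
  exact ⟨U, h1, h2, h3.of_le (by exact_mod_cast h)⟩

theorem CS.diffAt {u : C2 → ℂ} (hu : CS V s u) (hs : 1 ≤ s) {p : C2} (hp : p ∈ V) :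
    DifferentiableAt ℝ u p := by
  obtain ⟨U, h1, h2, h3⟩ := hu
  have h4 : p ∈ U := h2 (subset_closure hp)
  exact (h3.differentiableOn (by
    intro h
    have : s = 0 := by exact_mod_cast h
    omega)).differentiableAt (h1.mem_nhds h4)

end CSs

/-! ### Bounded functions -/

/-- bounded on V -/
def Bd (V : Set C2) (u : C2 → ℂ) : Prop := ∃ M : ℝ, ∀ p ∈ V, ‖u p‖ ≤ M

theorem Bd.of_cont {V : Set C2} (hV : IsCompact (closure V)) {u : C2 → ℂ} {U : Set C2}
    (hU : closure V ⊆ U) (hu : ContinuousOn u U) : Bd V u := by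
  obtain ⟨M, hM⟩ := hV.exists_bound_of_continuousOn (hu.mono hU)
  exact ⟨M, fun p hp => hM p (subset_closure hp)⟩

theorem Bd.mul {V : Set C2} {u v : C2 → ℂ} (hu : Bd V u) (hv : Bd V v) :
    Bd V (fun p => u p * v p) := by
  obtain ⟨M, hM⟩ := hu
  obtain ⟨N, hN⟩ := hv
  refine ⟨M * N, fun p hp => ?_⟩
  rw [norm_mul]
  exact mul_le_mul (hM p hp) (hN p hp) (norm_nonneg _) ((norm_nonneg _).trans (hM p hp))

theorem Bd.add {V : Set C2} {u v : C2 → ℂ} (hu : Bd V u) (hv : Bd V v) :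
    Bd V (fun p => u p + v p) := by
  obtain ⟨M, hM⟩ := hu
  obtain ⟨N, hN⟩ := hv
  exact ⟨M + N, fun p hp => (norm_add_le _ _).trans (add_le_add (hM p hp) (hN p hp))⟩

theorem Bd.sub {V : Set C2} {u v : C2 → ℂ} (hu : Bd V u) (hv : Bd V v) :
    Bd V (fun p => u p - v p) := by
  obtain ⟨M, hM⟩ := hu
  obtain ⟨N, hN⟩ := hv
  exact ⟨M + N, fun p hp => (norm_sub_le _ _).trans (add_le_add (hM p hp) (hN p hp))⟩

theorem Bd.const {V : Set C2} (a : ℂ) : Bd V (fun _ => a) := ⟨‖a‖, fun _ _ => le_rfl⟩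

theorem CS.bd {V : Set C2} {s : ℕ} (hV : IsCompact (closure V)) {u : C2 → ℂ} (hu : CS V s u) :
    Bd V u := by
  obtain ⟨U, h1, h2, h3⟩ := hu
  exact Bd.of_cont hV h2 h3.continuousOn

/-- the dbar of a C^1 function is continuous -/
theorem dzb_cont {W : Type} [NormedAddCommGroup W] [NormedSpace ℂ W] {U : Set C2} (hU : IsOpen U)
    {u : C2 → W} (hu : ContDiffOn ℝ 1 u U) (i : Fin 2) : ContinuousOn (dzb i u) U := by
  have h := hu.continuousOn_fderiv_of_isOpen hU (by norm_num)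
  unfold dzb
  exact (((h.clm_apply continuousOn_const).add
    ((h.clm_apply continuousOn_const).const_smul I)).const_smul (1 / 2 : ℂ))

theorem dz_cont {W : Type} [NormedAddCommGroup W] [NormedSpace ℂ W] {U : Set C2} (hU : IsOpen U)
    {u : C2 → W} (hu : ContDiffOn ℝ 1 u U) (i : Fin 2) : ContinuousOn (dz i u) U := by
  have h := hu.continuousOn_fderiv_of_isOpen hU (by norm_num)
  unfold dz
  exact (((h.clm_apply continuousOn_const).sub
    ((h.clm_apply continuousOn_const).const_smul I)).const_smul (1 / 2 : ℂ))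

theorem CS.bd_dzb {V : Set C2} {s : ℕ} (hV : IsCompact (closure V)) {u : C2 → ℂ} (hu : CS V s u)
    (hs : 1 ≤ s) (i : Fin 2) : Bd V (dzb i u) := by
  obtain ⟨U, h1, h2, h3⟩ := hu
  exact Bd.of_cont hV h2 (dzb_cont h1 (h3.of_le (by exact_mod_cast hs)) i)

/-- a finite sum with bounded coefficients -/
theorem Bd.sum_le {ι : Type} {V : Set C2} (S : Finset ι) (a : ι → C2 → ℂ)
    (ha : ∀ m ∈ S, Bd V (a m)) : ∃ C : ℝ, 0 ≤ C ∧ ∀ p ∈ V, ∀ Z : ι → ℂ,
      ‖∑ m ∈ S, a m p * Z m‖ ≤ C * ∑ m ∈ S, ‖Z m‖ := by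
  classical
  choose! M hM using ha
  refine ⟨∑ m ∈ S, |M m|, Finset.sum_nonneg fun _ _ => abs_nonneg _, fun p hp Z => ?_⟩
  refine (norm_sum_le _ _).trans ?_
  rw [Finset.mul_sum]
  refine Finset.sum_le_sum fun m hm => ?_
  rw [norm_mul]
  refine mul_le_mul_of_nonneg_right ?_ (norm_nonneg _)
  exact ((hM m hm p hp).trans (le_abs_self _)).trans
    (Finset.single_le_sum (f := fun m => |M m|) (fun _ _ => abs_nonneg _) hm)

/-! ### The structure functions are bounded -/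

section Str

variable {ρ : C2 → ℝ} (hρ : ContDiff ℝ SM ρ) (ht : ContDiff ℝ SM (tau ρ))
  (hn : ContDiffOn ℝ SM (nu ρ) {p | g2 ρ p ≠ 0})

include hρ

theorem rc_smooth : ContDiff ℝ SM (rc ρ) := Complex.ofRealCLM.contDiff.comp hρ

theorem rj_cont (j : Fin 2) : Continuous (rj ρ j) := by
  rw [← continuousOn_univ]
  exact dz_cont isOpen_univ ((rc_smooth hρ).of_le one_le_SM).contDiffOn j

theorem rjb_cont (j : Fin 2) : Continuous (rjb ρ j) := by
  rw [← continuousOn_univ]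
  exact dzb_cont isOpen_univ ((rc_smooth hρ).of_le one_le_SM).contDiffOn j

theorem g2_cont : Continuous (g2 ρ) :=
  ((rj_cont hρ 0).mul (rjb_cont hρ 0)).add ((rj_cont hρ 1).mul (rjb_cont hρ 1))

theorem g2_open : IsOpen {p | g2 ρ p ≠ 0} := isOpen_ne_fun (g2_cont hρ) continuous_const

include ht

omit hρ in
theorem rjk_cont (j k : Fin 2) : Continuous (rjk ρ j k) := by
  have h1 : ContDiff ℝ SM (rj ρ j) := by
    have h2 := contDiff_pi.1 ht
    fin_cases j
    · have h3 : rj ρ 0 = fun p => -(tau ρ p 1) := by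
        funext p
        simp [tau]
      show ContDiff ℝ SM (rj ρ 0)
      rw [h3]
      exact (h2 1).neg
    · exact h2 0
  rw [← continuousOn_univ]
  exact dzb_cont isOpen_univ (h1.of_le one_le_SM).contDiffOn k

omit hρ in
theorem fC_cont (k : Fin 2) : ContinuousOn (fC ρ k) {p | g2 ρ p ≠ 0} := by
  have h2 := continuous_pi_iff.1 ht.continuous
  exact (((rjk_cont ht 0 k).mul (h2 0)).add ((rjk_cont ht 1 k).mul (h2 1))).continuousOn

include hn

omit hρ in
theorem fA_cont (k : Fin 2) : ContinuousOn (fA ρ k) {p | g2 ρ p ≠ 0} := by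
  have h2 := continuousOn_pi.1 hn.continuousOn
  exact ((rjk_cont ht 0 k).continuousOn.mul (h2 0)).add ((rjk_cont ht 1 k).continuousOn.mul (h2 1))

theorem fB_cont (k : Fin 2) : ContinuousOn (fB ρ k) {p | g2 ρ p ≠ 0} := by
  have h1 : ContinuousOn (dzb k (nu ρ)) {p | g2 ρ p ≠ 0} :=
    dzb_cont (g2_open hρ) (hn.of_le one_le_SM) k
  have h2 := continuousOn_pi.1 h1
  exact (((rjb_cont hρ 1).continuousOn.mul (h2 0)).sub
    ((rjb_cont hρ 0).continuousOn.mul (h2 1))).div (g2_cont hρ).continuousOn fun _ h => h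

theorem fE_cont (k : Fin 2) : ContinuousOn (fE ρ k) {p | g2 ρ p ≠ 0} := by
  have h1 : ContinuousOn (dzb k (tau ρ)) {p | g2 ρ p ≠ 0} :=
    dzb_cont (g2_open hρ) (ht.of_le one_le_SM).contDiffOn k
  have h2 := continuousOn_pi.1 h1
  exact (((rjb_cont hρ 1).continuousOn.mul (h2 0)).sub
    ((rjb_cont hρ 0).continuousOn.mul (h2 1))).div (g2_cont hρ).continuousOn fun _ h => h

end Str

/-! ### Linearity of the integrals -/

/-- the point p + t nu is in the domain -/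
theorem mem_FDom {Ω : Set C2} {ρ : C2 → ℝ} {f : C2 → ℂ} {k0 : ℕ} {B : ℝ} {V : Set C2}
    {t0 c2 : ℝ} (hA : SetA Ω ρ f k0 B V t0 c2) {ε : ℝ} (h0 : 0 < ε) (h1 : ε < t0) {p : C2}
    (hp : p ∈ Veps ρ V ε) {L : ℝ} (hL : L ∈ Set.Icc (Real.log ε) (Real.log (t0 / ε))) :
    (p, ε * Real.exp L) ∈ FDom Ω ρ := by
  have hV : p ∈ closure V := subset_closure hp.1
  refine ⟨hA.geo.g2ne p hV, ?_⟩
  have e1 : ε * ε ≤ ε * Real.exp L := by
    refine mul_le_mul_of_nonneg_left ?_ h0.le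
    exact (Real.exp_log h0).symm.le.trans (Real.exp_le_exp.2 hL.1)
  have e2 : ε * Real.exp L ≤ t0 := by
    have h3 : Real.exp L ≤ t0 / ε := by
      rw [← Real.exp_log (div_pos hA.geo.t0pos h0)]
      exact Real.exp_le_exp.2 hL.2
    calc ε * Real.exp L ≤ ε * (t0 / ε) := mul_le_mul_of_nonneg_left h3 h0.le
      _ = t0 := by field_simp
  have e3 : 0 < ε * Real.exp L := by positivity
  have h4 := hA.geo.disc p hV (ε * Real.exp L) e3 e2 (by
    have := hp.2
    nlinarith) 0 (by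
    rw [norm_zero]
    exact mul_nonneg hA.geo.c2pos.le (Real.sqrt_nonneg _))
  rw [zero_smul, add_zero] at h4
  show p + ((ε * Real.exp L : ℝ) : ℂ) • nu ρ p ∈ Ω
  rw [hA.dom.eq]
  show ρ _ < 0
  linarith

theorem Fk_cont (h1a : F1aStmt) {Ω : Set C2} {ρ : C2 → ℝ} {f : C2 → ℂ} {k0 : ℕ} {B : ℝ}
    {V : Set C2} {t0 c2 : ℝ} (hA : SetA Ω ρ f k0 B V t0 c2) {ε : ℝ} (h0 : 0 < ε) (h1 : ε < t0)
    {p : C2} (hp : p ∈ Veps ρ V ε) (k : ℕ) :
    ContinuousOn (fun L : ℝ => Fk ρ f k p (ε * Real.exp L))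
      (Set.Icc (Real.log ε) (Real.log (t0 / ε))) := by
  have hΩ : IsOpen Ω := by
    rw [hA.dom.eq]
    exact isOpen_lt hA.dom.smooth.continuous continuous_const
  have h2 := ((h1a Ω ρ f hΩ hA.dom.smooth hA.bf.hol).2.2.2.1 k).continuousOn
  have h3 : ContinuousOn (fun L : ℝ => ((p, ε * Real.exp L) : C2 × ℝ))
      (Set.Icc (Real.log ε) (Real.log (t0 / ε))) := by fun_prop
  exact h2.comp h3 fun L hL => mem_FDom hA h0 h1 hp hL

theorem log_le {t0 ε : ℝ} (h0 : 0 < ε) (h1 : ε < t0) (h2 : t0 ≤ 1) :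
    Real.log ε ≤ Real.log (t0 / ε) := by
  refine Real.log_le_log h0 ?_
  rw [le_div_iff₀ h0]
  nlinarith

theorem Ik_int (h1a : F1aStmt) {Ω : Set C2} {ρ : C2 → ℝ} {f : C2 → ℂ} {k0 : ℕ} {B : ℝ}
    {V : Set C2} {t0 c2 : ℝ} (hA : SetA Ω ρ f k0 B V t0 c2) {ε : ℝ} (h0 : 0 < ε) (h1 : ε < t0)
    {p : C2} (hp : p ∈ Veps ρ V ε) (k : ℕ) (c0 : C2 → ℂ) {g : ℂ → ℂ} (hg : Continuous g) :
    IntervalIntegrable (fun L : ℝ => Fk ρ f k p (ε * Real.exp L) * g ((L : ℂ) - c0 p))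
      MeasureTheory.volume (Real.log ε) (Real.log (t0 / ε)) := by
  refine ContinuousOn.intervalIntegrable ?_
  rw [Set.uIcc_of_le (log_le h0 h1 hA.geo.t0le)]
  refine (Fk_cont h1a hA h0 h1 hp k).mul ?_
  have : Continuous (fun L : ℝ => g ((L : ℂ) - c0 p)) :=
    hg.comp (Complex.continuous_ofReal.sub continuous_const)
  exact this.continuousOn

theorem Ik_lin (h1a : F1aStmt) {Ω : Set C2} {ρ : C2 → ℝ} {f : C2 → ℂ} {k0 : ℕ} {B : ℝ}
    {V : Set C2} {t0 c2 : ℝ} (hA : SetA Ω ρ f k0 B V t0 c2) {ε : ℝ} (h0 : 0 < ε) (h1 : ε < t0)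
    {p : C2} (hp : p ∈ Veps ρ V ε) (k : ℕ) (c0 : C2 → ℂ) {g h : ℂ → ℂ} (hg : Continuous g)
    (hh : Continuous h) (a b : ℂ) :
    Ik ρ f c0 t0 ε k (fun z => a * g z + b * h z) p =
      a * Ik ρ f c0 t0 ε k g p + b * Ik ρ f c0 t0 ε k h p := by
  have i1 := Ik_int h1a hA h0 h1 hp k c0 hg
  have i2 := Ik_int h1a hA h0 h1 hp k c0 hh
  unfold Ik
  have e : ∀ L : ℝ, Fk ρ f k p (ε * Real.exp L) * (a * g ((L : ℂ) - c0 p) + b * h ((L : ℂ) - c0 p)) =
      a * (Fk ρ f k p (ε * Real.exp L) * g ((L : ℂ) - c0 p)) +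
      b * (Fk ρ f k p (ε * Real.exp L) * h ((L : ℂ) - c0 p)) := fun L => by ring
  simp only [e]
  rw [intervalIntegral.integral_add (i1.const_mul a) (i2.const_mul b),
    intervalIntegral.integral_const_mul, intervalIntegral.integral_const_mul]
  ring

end Pool.Agent.AK.H54
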