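import Pool.Agent.Helper54_AK.F5Base
import Pool.Agent.Helper54_AK.F5Alg

set_option autoImplicit false

/-!
# F5: the dbar of the approximation
-/

namespace Pool.Agent.AK.H54

open Complex Finset

theorem Dk_zero (ρ : C2 → ℝ) (c : ℕ → C2 → ℂ) (i : Fin 2) (p : C2) :
    Dk ρ c 0 i p - fC ρ i p * c 1 p = fA ρ i p + dzb i (c 0) p := by
  simp [Dk]
  ring

theorem qf_zero_fun (c : ℕ → C2 → ℂ) {j k : ℕ} (h : k < j) : qf c j k = fun _ => 0 :=
  funext fun p => qf_zero c p j k h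

/-- dbar of the first term -/
theorem dI0 (h4 : F4Stmt) (h1a : F1aStmt) {Ω : Set C2} {ρ : C2 → ℝ} {f : C2 → ℂ} {k0 : ℕ} {B : ℝ}
    {V : Set C2} {t0 c2 : ℝ} (hA : SetA Ω ρ f k0 B V t0 c2) {J : ℕ} {c : ℕ → C2 → ℂ} {K' : ℝ}
    {K : ℂ → ℂ} {h : ℕ → ℕ → ℂ → ℂ} (hT : Tow ρ V J (k0 + 1) c K') (hK : Ker J K h) {ε : ℝ}
    (h0 : 0 < ε) (h1 : ε < t0) {p : C2} (hp : p ∈ Veps ρ V ε) (i : Fin 2) :
    dzb i (Ik ρ f (c 0) t0 ε 0 K) p =
      (fA ρ i p + dzb i (c 0) p) * Ik ρ f (c 0) t0 ε 0 (h 0 1) p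
      + fB ρ i p * (exp (c 0 p) * Ik ρ f (c 0) t0 ε 1 (h 1 1) p)
      + fA ρ i p * bk ρ f (c 0) t0 ε 0 K p := by
  have e := h4 Ω ρ f k0 B V t0 c2 hA (c 0) (CS.mono (hT.sm 0) (by omega)) 0 K hK.decK.1 ε h0 h1
    p hp i
  have e1 : deriv K = fun z => (-1) * h 0 1 z + 0 * h 0 1 z := by
    funext z
    rw [hK.dK z]
    ring
  have e2 : (fun y => exp y * K y) = h 1 1 := funext fun z => hK.eK z
  have e3 := Ik_lin h1a hA h0 h1 hp 0 (c 0) (hK.dec 0 1).1.continuous (hK.dec 0 1).1.continuous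
    (-1) 0
  rw [e, e1, e3, e2]
  push_cast
  ring

/-- dbar of the other terms -/
theorem dIk (h4 : F4Stmt) (h1a : F1aStmt) {Ω : Set C2} {ρ : C2 → ℝ} {f : C2 → ℂ} {k0 : ℕ} {B : ℝ}
    {V : Set C2} {t0 c2 : ℝ} (hA : SetA Ω ρ f k0 B V t0 c2) {J : ℕ} {c : ℕ → C2 → ℂ} {K' : ℝ}
    {K : ℂ → ℂ} {h : ℕ → ℕ → ℂ → ℂ} (hT : Tow ρ V J (k0 + 1) c K') (hK : Ker J K h) {ε : ℝ}
    (h0 : 0 < ε) (h1 : ε < t0) {p : C2} (hp : p ∈ Veps ρ V ε) (i : Fin 2) {k j : ℕ} (hk : 1 ≤ k)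
    (hk' : k ≤ J) (hj : 1 ≤ j) :
    dzb i (Ik ρ f (c 0) t0 ε k (h k j)) p =
      -(fA ρ i p + dzb i (c 0) p) * ((k : ℂ) * Ik ρ f (c 0) t0 ε k (h k j) p -
        Ik ρ f (c 0) t0 ε k (h k (j + 1)) p)
      + fB ρ i p * (exp (c 0 p) * (Ik ρ f (c 0) t0 ε (k + 1) (h (k + 1) (j + 1)) p
        - (k : ℂ) * Ik ρ f (c 0) t0 ε (k + 1) (h (k + 1) j) p))
      + (k : ℂ) * fC ρ i p * (exp (-c 0 p) * Ik ρ f (c 0) t0 ε (k - 1) (h (k - 1) j) p)
      + (k : ℂ) * fE ρ i p * Ik ρ f (c 0) t0 ε k (h k j) p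
      + fA ρ i p * bk ρ f (c 0) t0 ε k (h k j) p
      + (k : ℂ) * fC ρ i p * exp (-c 0 p) *
        bk ρ f (c 0) t0 ε (k - 1) (fun y => exp (-y) * h k j y) p := by
  have e := h4 Ω ρ f k0 B V t0 c2 hA (c 0) (CS.mono (hT.sm 0) (by omega)) k (h k j)
    (hK.dec k j).1 ε h0 h1 p hp i
  have c1 : ∀ k j, Continuous (h k j) := fun k j => (hK.dec k j).1.continuous
  have e1 : deriv (h k j) = fun z => (k : ℂ) * h k j z + (-1) * h k (j + 1) z := by
    funext z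
    rw [hK.dh k j (by omega) hj z]
    ring
  have e2 : (fun y => exp y * h k j y) =
      fun z => 1 * h (k + 1) (j + 1) z + (-(k : ℂ)) * h (k + 1) j z := by
    funext z
    rw [hK.up k j hk' hj z]
    ring
  have e3 : deriv (fun y => exp (-y) * h k j y) =
      fun z => (-1) * h (k - 1) j z + 0 * h (k - 1) j z := by
    funext z
    rw [hK.dm k j hk (by omega) hj z]
    ring
  have l1 := Ik_lin h1a hA h0 h1 hp k (c 0) (c1 k j) (c1 k (j + 1)) (k : ℂ) (-1)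
  have l2 := Ik_lin h1a hA h0 h1 hp (k + 1) (c 0) (c1 (k + 1) (j + 1)) (c1 (k + 1) j) 1 (-(k : ℂ))
  have l3 := Ik_lin h1a hA h0 h1 hp (k - 1) (c 0) (c1 (k - 1) j) (c1 (k - 1) j) (-1) 0
  rw [e, e1, e2, e3, l1, l2, l3]
  ring

/-- the terms of the rearrangement -/
theorem dTerm (h4 : F4Stmt) (h5a : F5aStmt) (h6 : L6Stmt) (h1a : F1aStmt) {Ω : Set C2}
    {ρ : C2 → ℝ} {f : C2 → ℂ} {k0 : ℕ} {B : ℝ}
    {V : Set C2} {t0 c2 : ℝ} (hA : SetA Ω ρ f k0 B V t0 c2) {J : ℕ} {c : ℕ → C2 → ℂ} {K' : ℝ}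
    {K : ℂ → ℂ} {h : ℕ → ℕ → ℂ → ℂ} (hT : Tow ρ V J (k0 + 1) c K') (hK : Ker J K h) {ε : ℝ}
    (h0 : 0 < ε) (h1 : ε < t0) {p : C2} (hp : p ∈ Veps ρ V ε) (i : Fin 2) {k j : ℕ} (hk : 1 ≤ k)
    (hk' : k ≤ J) (hj : 1 ≤ j) :
    DifferentiableAt ℝ
      (fun q => exp ((k : ℂ) * c 0 q) * qf c j k q * Ik ρ f (c 0) t0 ε k (h k j) q) p ∧
    dzb i (fun q => exp ((k : ℂ) * c 0 q) * qf c j k q * Ik ρ f (c 0) t0 ε k (h k j) q) p =
      ((dzb i (qf c j k) p + (k : ℂ) * (fE ρ i p - fA ρ i p) * qf c j k p) *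
          (exp ((k : ℂ) * c 0 p) * Ik ρ f (c 0) t0 ε k (h k j) p)
        + (fA ρ i p + dzb i (c 0) p) * qf c j k p *
          (exp ((k : ℂ) * c 0 p) * Ik ρ f (c 0) t0 ε k (h k (j + 1)) p)
        + fB ρ i p * qf c j k p *
          (exp (((k + 1 : ℕ) : ℂ) * c 0 p) * Ik ρ f (c 0) t0 ε (k + 1) (h (k + 1) (j + 1)) p
          - (k : ℂ) * (exp (((k + 1 : ℕ) : ℂ) * c 0 p) *
            Ik ρ f (c 0) t0 ε (k + 1) (h (k + 1) j) p))
        + (k : ℂ) * fC ρ i p * qf c j k p *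
          (exp (((k - 1 : ℕ) : ℂ) * c 0 p) * Ik ρ f (c 0) t0 ε (k - 1) (h (k - 1) j) p))
      + (exp ((k : ℂ) * c 0 p) * qf c j k p * fA ρ i p * bk ρ f (c 0) t0 ε k (h k j) p
        + exp ((k : ℂ) * c 0 p) * qf c j k p * ((k : ℂ) * fC ρ i p * exp (-c 0 p)) *
          bk ρ f (c 0) t0 ε (k - 1) (fun y => exp (-y) * h k j y) p) := by
  have hc : ∀ k, DifferentiableAt ℝ (c k) p := fun k => CS.diffAt (hT.sm k) (by omega) hp.1
  have hq := (h5a ρ c p hc).2.1 j k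
  have hopen : IsOpen (Veps ρ V ε) :=
    hA.geo.opn.inter (isOpen_lt hA.dom.smooth.continuous continuous_const)
  obtain ⟨_, hC⟩ := h6 Ω ρ f k0 B V t0 c2 hA (c 0) (hT.sm 0) k (h k j) (hK.dec k j)
  have hI : DifferentiableAt ℝ (Ik ρ f (c 0) t0 ε k (h k j)) p :=
    ((hC ε h0 h1).1.differentiableOn (by
      intro h
      have : k0 + 1 = 0 := by exact_mod_cast h
      omega)).differentiableAt (hopen.mem_nhds hp)
  have hE : DifferentiableAt ℝ (fun q => exp ((k : ℂ) * c 0 q)) p :=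
    ((hc 0).const_mul (k : ℂ)).cexp
  have hEq : DifferentiableAt ℝ (fun q => exp ((k : ℂ) * c 0 q) * qf c j k q) p := hE.mul hq
  refine ⟨hEq.mul hI, ?_⟩
  have m1 := dzb_mul i (u := fun q => exp ((k : ℂ) * c 0 q) * qf c j k q)
    (v := Ik ρ f (c 0) t0 ε k (h k j)) hEq hI
  have m2 := dzb_mul i (u := fun q => exp ((k : ℂ) * c 0 q)) (v := qf c j k) hE hq
  have m3 := dzb_exp i (k : ℂ) (hc 0)
  rw [m1, m2, m3, dIk h4 h1a hA hT hK h0 h1 hp i hk hk' hj]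
  have x1 : exp (((k + 1 : ℕ) : ℂ) * c 0 p) = exp ((k : ℂ) * c 0 p) * exp (c 0 p) := by
    rw [← Complex.exp_add]
    congr 1
    push_cast
    ring
  have x2 : exp (((k - 1 : ℕ) : ℂ) * c 0 p) = exp ((k : ℂ) * c 0 p) * exp (-c 0 p) := by
    rw [← Complex.exp_add]
    congr 1
    push_cast [hk]
    ring
  rw [x1, x2]
  ring

/-- the exact formula -/
theorem exact (h4 : F4Stmt) (h5a : F5aStmt) (h6 : L6Stmt) (h1a : F1aStmt) {Ω : Set C2}
    {ρ : C2 → ℝ} {f : C2 → ℂ} {k0 : ℕ} {B : ℝ}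
    {V : Set C2} {t0 c2 : ℝ} (hA : SetA Ω ρ f k0 B V t0 c2) {J : ℕ} {c : ℕ → C2 → ℂ} {K' : ℝ}
    {K : ℂ → ℂ} {h : ℕ → ℕ → ℂ → ℂ} (hJ : 1 ≤ J) (hT : Tow ρ V J (k0 + 1) c K') (hK : Ker J K h)
    {ε : ℝ} (h0 : 0 < ε) (h1 : ε < t0) {p : C2} (hp : p ∈ Veps ρ V ε) (i : Fin 2) :
    dzb i (Feps ρ f c t0 ε J K h) p - Main ρ f c t0 ε J h i p =
      ∑ j ∈ range (J + 2), (exp ((J : ℂ) * c 0 p) * (dzb i (qf c (j + 1) J) p
          + (J : ℂ) * (fE ρ i p - fA ρ i p) * qf c (j + 1) J p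
          + (fA ρ i p + dzb i (c 0) p) * qf c j J p
          + fB ρ i p * (qf c j (J - 1) p - ((J : ℂ) - 1) * qf c (j + 1) (J - 1) p))) *
            Ik ρ f (c 0) t0 ε J (h J (j + 1)) p
      + ∑ j ∈ range (J + 2), (exp (((J + 1 : ℕ) : ℂ) * c 0 p) *
          (fB ρ i p * (qf c j J p - (J : ℂ) * qf c (j + 1) J p))) *
            Ik ρ f (c 0) t0 ε (J + 1) (h (J + 1) (j + 1)) p
      + fA ρ i p * bk ρ f (c 0) t0 ε 0 K p
      + ∑ k ∈ Icc 1 J, ∑ j ∈ Icc 1 k,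
          (exp ((k : ℂ) * c 0 p) * qf c j k p * fA ρ i p) * bk ρ f (c 0) t0 ε k (h k j) p
      + ∑ k ∈ Icc 1 J, ∑ j ∈ Icc 1 k,
          (exp ((k : ℂ) * c 0 p) * qf c j k p * ((k : ℂ) * fC ρ i p * exp (-c 0 p))) *
          bk ρ f (c 0) t0 ε (k - 1) (fun y => exp (-y) * h k j y) p := by
  have hc : ∀ k, DifferentiableAt ℝ (c k) p := fun k => CS.diffAt (hT.sm k) (by omega) hp.1
  obtain ⟨q1, q2, q3⟩ := h5a ρ c p hc
  have hopen : IsOpen (Veps ρ V ε) :=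
    hA.geo.opn.inter (isOpen_lt hA.dom.smooth.continuous continuous_const)
  have hI0 : DifferentiableAt ℝ (Ik ρ f (c 0) t0 ε 0 K) p := by
    obtain ⟨_, hC⟩ := h6 Ω ρ f k0 B V t0 c2 hA (c 0) (hT.sm 0) 0 K hK.decK
    exact ((hC ε h0 h1).1.differentiableOn (by
      intro h
      have : k0 + 1 = 0 := by exact_mod_cast h
      omega)).differentiableAt (hopen.mem_nhds hp)
  -- abbreviations
  set X : ℕ → ℕ → ℂ := fun k j => exp ((k : ℂ) * c 0 p) * Ik ρ f (c 0) t0 ε k (h k j) p with hX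
  have hR := rearr (fA ρ i p) (fB ρ i p) (fC ρ i p) (fE ρ i p) (dzb i (c 0) p)
    (fun j k => qf c j k p) (fun j k => dzb i (qf c j k) p)
    (fun j k => ∑ l ∈ range (k + 1), Dk ρ c l i p * qf c j (k - l) p) X J (J + 2) hJ le_rfl
    q1 (by
      intro k hk
      show (if k = 0 then (1 : ℂ) else 0) = 0
      rw [if_neg hk]) (by
      intro j k hjk
      show dzb i (qf c j k) p = 0
      rw [qf_zero_fun c hjk]
      exact dzb_const i 0 p) (by
      intro k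
      exact dzb_const i _ p) (by
      intro j k
      have h3 := q3 j k i
      rw [Dk_zero] at h3
      exact h3)
  beta_reduce at hR
  -- the left hand side of the rearrangement
  have hL : ∑ k ∈ range (J + 1), ∑ j ∈ range (J + 2),
      ((dzb i (qf c j k) p + (k : ℂ) * (fE ρ i p - fA ρ i p) * qf c j k p) * X k j
      + (fA ρ i p + dzb i (c 0) p) * qf c j k p * X k (j + 1)
      + fB ρ i p * qf c j k p * (X (k + 1) (j + 1) - (k : ℂ) * X (k + 1) j)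
      + (k : ℂ) * fC ρ i p * qf c j k p * X (k - 1) j) =
      ((fA ρ i p + dzb i (c 0) p) * X 0 1 + fB ρ i p * X 1 1)
      + ∑ k ∈ Icc 1 J, ∑ j ∈ Icc 1 k,
        ((dzb i (qf c j k) p + (k : ℂ) * (fE ρ i p - fA ρ i p) * qf c j k p) * X k j
        + (fA ρ i p + dzb i (c 0) p) * qf c j k p * X k (j + 1)
        + fB ρ i p * qf c j k p * (X (k + 1) (j + 1) - (k : ℂ) * X (k + 1) j)
        + (k : ℂ) * fC ρ i p * qf c j k p * X (k - 1) j) := by
    have z1 : ∀ k j, (k < j ∨ (j = 0 ∧ k ≠ 0)) → qf c j k p = 0 ∧ dzb i (qf c j k) p = 0 := by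
      rintro k j (hkj | ⟨rfl, hk⟩)
      · refine ⟨q1 j k hkj, ?_⟩
        rw [qf_zero_fun c hkj]
        exact dzb_const i 0 p
      · refine ⟨?_, dzb_const i _ p⟩
        show (if k = 0 then (1 : ℂ) else 0) = 0
        rw [if_neg hk]
    have s1 : range (J + 1) = insert 0 (Icc 1 J) := by
      ext x
      simp only [Finset.mem_range, Finset.mem_insert, Finset.mem_Icc]
      omega
    rw [s1, Finset.sum_insert (by simp)]
    congr 1
    · rw [Finset.sum_eq_single 0]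
      · have z2 : qf c 0 0 p = 1 := rfl
        have z3 : dzb i (qf c 0 0) p = 0 := dzb_const i _ p
        rw [z2, z3]
        push_cast
        ring
      · intro j _ hj
        obtain ⟨z2, z3⟩ := z1 0 j (Or.inl (by omega))
        rw [z2, z3]
        ring
      · intro hn
        exact absurd (Finset.mem_range.2 (by omega)) hn
    · refine Finset.sum_congr rfl fun k hk => ?_
      obtain ⟨k1, k2⟩ := Finset.mem_Icc.1 hk
      symm
      refine Finset.sum_subset ?_ ?_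
      · intro x hx
        have := Finset.mem_Icc.1 hx
        exact Finset.mem_range.2 (by omega)
      · intro x _ hx2
        have h5 : k < x ∨ (x = 0 ∧ k ≠ 0) := by
          by_contra hc'
          apply hx2
          exact Finset.mem_Icc.2 (by omega)
        obtain ⟨z2, z3⟩ := z1 k x h5
        rw [z2, z3]
        ring
  -- the main part
  have hM : Main ρ f c t0 ε J h i p = ∑ k ∈ range J, ∑ j ∈ range (J + 2),
      (∑ l ∈ range (k + 1), Dk ρ c l i p * qf c j (k - l) p) * X k (j + 1) := by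
    unfold Main
    refine Finset.sum_congr rfl fun k hk => ?_
    have hk' := Finset.mem_range.1 hk
    rw [← Finset.sum_subset (s₁ := range (k + 1)) (s₂ := range (J + 2))]
    · refine Finset.sum_congr rfl fun j _ => ?_
      rw [hX]
      ring
    · intro x hx
      have := Finset.mem_range.1 hx
      exact Finset.mem_range.2 (by omega)
    · intro x _ hx2
      have hx3 : k < x := by
        by_contra hc'
        exact hx2 (Finset.mem_range.2 (by omega))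
      rw [Finset.sum_eq_zero, zero_mul]
      intro l _
      rw [q1 x (k - l) (by omega), mul_zero]
  -- the derivative
  have hD : dzb i (Feps ρ f c t0 ε J K h) p = dzb i (Ik ρ f (c 0) t0 ε 0 K) p +
      ∑ k ∈ Icc 1 J, ∑ j ∈ Icc 1 k, dzb i (fun q => exp ((k : ℂ) * c 0 q) * qf c j k q *
        Ik ρ f (c 0) t0 ε k (h k j) q) p := by
    have d1 : ∀ k ∈ Icc 1 J, ∀ j ∈ Icc 1 k, DifferentiableAt ℝ
        (fun q => exp ((k : ℂ) * c 0 q) * qf c j k q * Ik ρ f (c 0) t0 ε k (h k j) q) p := by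
      intro k hk j hj
      have hk2 := Finset.mem_Icc.1 hk
      have hj2 := Finset.mem_Icc.1 hj
      exact (dTerm h4 h5a h6 h1a hA hT hK h0 h1 hp i hk2.1 hk2.2 hj2.1).1
    have d2 : ∀ k ∈ Icc 1 J, DifferentiableAt ℝ (fun q => ∑ j ∈ Icc 1 k,
        exp ((k : ℂ) * c 0 q) * qf c j k q * Ik ρ f (c 0) t0 ε k (h k j) q) p :=
      fun k hk => DifferentiableAt.fun_sum fun j hj => d1 k hk j hj
    have d3 : DifferentiableAt ℝ (fun q => ∑ k ∈ Icc 1 J, ∑ j ∈ Icc 1 k,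
        exp ((k : ℂ) * c 0 q) * qf c j k q * Ik ρ f (c 0) t0 ε k (h k j) q) p :=
      DifferentiableAt.fun_sum fun k hk => d2 k hk
    have e1 := dzb_add i hI0 d3
    have e2 := dzb_sum i (s := Icc 1 J) (u := fun k q => ∑ j ∈ Icc 1 k,
        exp ((k : ℂ) * c 0 q) * qf c j k q * Ik ρ f (c 0) t0 ε k (h k j) q) (p := p) d2
    have e3 : Feps ρ f c t0 ε J K h = fun q => Ik ρ f (c 0) t0 ε 0 K q +
        ∑ k ∈ Icc 1 J, ∑ j ∈ Icc 1 k,
          exp ((k : ℂ) * c 0 q) * qf c j k q * Ik ρ f (c 0) t0 ε k (h k j) q := rfl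
    rw [e3, e1, e2]
    congr 1
    refine Finset.sum_congr rfl fun k hk => ?_
    exact dzb_sum i (s := Icc 1 k) (u := fun j q =>
        exp ((k : ℂ) * c 0 q) * qf c j k q * Ik ρ f (c 0) t0 ε k (h k j) q) (p := p) (d1 k hk)
  have hS : ∑ k ∈ Icc 1 J, ∑ j ∈ Icc 1 k, dzb i (fun q => exp ((k : ℂ) * c 0 q) * qf c j k q *
        Ik ρ f (c 0) t0 ε k (h k j) q) p = ∑ k ∈ Icc 1 J, ∑ j ∈ Icc 1 k,
        ((dzb i (qf c j k) p + (k : ℂ) * (fE ρ i p - fA ρ i p) * qf c j k p) * X k j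
        + (fA ρ i p + dzb i (c 0) p) * qf c j k p * X k (j + 1)
        + fB ρ i p * qf c j k p * (X (k + 1) (j + 1) - (k : ℂ) * X (k + 1) j)
        + (k : ℂ) * fC ρ i p * qf c j k p * X (k - 1) j)
      + (∑ k ∈ Icc 1 J, ∑ j ∈ Icc 1 k,
          (exp ((k : ℂ) * c 0 p) * qf c j k p * fA ρ i p) * bk ρ f (c 0) t0 ε k (h k j) p
      + ∑ k ∈ Icc 1 J, ∑ j ∈ Icc 1 k,
          (exp ((k : ℂ) * c 0 p) * qf c j k p * ((k : ℂ) * fC ρ i p * exp (-c 0 p))) *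
          bk ρ f (c 0) t0 ε (k - 1) (fun y => exp (-y) * h k j y) p) := by
    rw [← Finset.sum_add_distrib, ← Finset.sum_add_distrib]
    refine Finset.sum_congr rfl fun k hk => ?_
    rw [← Finset.sum_add_distrib, ← Finset.sum_add_distrib]
    refine Finset.sum_congr rfl fun j hj => ?_
    have hk2 := Finset.mem_Icc.1 hk
    have hj2 := Finset.mem_Icc.1 hj
    exact (dTerm h4 h5a h6 h1a hA hT hK h0 h1 hp i hk2.1 hk2.2 hj2.1).2
  have hX0 : X 0 1 = Ik ρ f (c 0) t0 ε 0 (h 0 1) p := by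
    rw [hX]
    simp
  have hX1 : X 1 1 = exp (c 0 p) * Ik ρ f (c 0) t0 ε 1 (h 1 1) p := by
    rw [hX]
    simp
  have hF1 : ∀ j, (exp ((J : ℂ) * c 0 p) * (dzb i (qf c (j + 1) J) p
          + (J : ℂ) * (fE ρ i p - fA ρ i p) * qf c (j + 1) J p
          + (fA ρ i p + dzb i (c 0) p) * qf c j J p
          + fB ρ i p * (qf c j (J - 1) p - ((J : ℂ) - 1) * qf c (j + 1) (J - 1) p))) *
            Ik ρ f (c 0) t0 ε J (h J (j + 1)) p = (dzb i (qf c (j + 1) J) p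
          + (J : ℂ) * (fE ρ i p - fA ρ i p) * qf c (j + 1) J p
          + (fA ρ i p + dzb i (c 0) p) * qf c j J p
          + fB ρ i p * (qf c j (J - 1) p - ((J : ℂ) - 1) * qf c (j + 1) (J - 1) p)) *
            X J (j + 1) := by
    intro j
    rw [hX]
    ring
  have hF2 : ∀ j, (exp (((J + 1 : ℕ) : ℂ) * c 0 p) *
          (fB ρ i p * (qf c j J p - (J : ℂ) * qf c (j + 1) J p))) *
            Ik ρ f (c 0) t0 ε (J + 1) (h (J + 1) (j + 1)) p =
          fB ρ i p * (qf c j J p - (J : ℂ) * qf c (j + 1) J p) * X (J + 1) (j + 1) := by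
    intro j
    rw [hX]
    ring
  rw [Finset.sum_congr rfl fun j _ => hF1 j, Finset.sum_congr rfl fun j _ => hF2 j, hD, hM, hS,
    dI0 h4 h1a hA hT hK h0 h1 hp i, ← hX0, ← hX1]
  rw [hL] at hR
  linear_combination hR

end Pool.Agent.AK.H54
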