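import Pool.Agent.Helper60_AK.StmtF

set_option autoImplicit false

/-!
# F5a: the generating function identity
-/

namespace Pool.Agent.AK.H54

open Complex Finset

/-- the exchange of two sums -/
theorem swap_sum (k : ℕ) (f : ℕ → ℕ → ℂ) :
    ∑ i ∈ Icc 1 k, ∑ m ∈ Icc 1 (k - i), f i m = ∑ m ∈ Icc 1 k, ∑ i ∈ Icc 1 (k - m), f i m := by
  refine Finset.sum_comm' ?_
  intro i m
  simp only [Finset.mem_Icc]
  omega

/-- a derivation of the powers -/
theorem deriv_pow {c d : ℕ → ℂ} {q r : ℕ → ℕ → ℂ}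
    (hq : ∀ j k, q (j + 1) k = (1 / ((j : ℂ) + 1)) * ∑ i ∈ Icc 1 k, c i * q j (k - i))
    (hr0 : ∀ k, r 0 k = 0)
    (hr : ∀ j k, r (j + 1) k = (1 / ((j : ℂ) + 1)) *
      ∑ i ∈ Icc 1 k, (d i * q j (k - i) + c i * r j (k - i))) :
    ∀ j k, r (j + 1) k = ∑ i ∈ Icc 1 k, d i * q j (k - i) := by
  intro j
  induction j with
  | zero =>
    intro k
    rw [hr]
    simp [hr0]
  | succ j ih =>
    intro k
    rw [hr, Finset.sum_add_distrib]
    have h1 : ∑ i ∈ Icc 1 k, c i * r (j + 1) (k - i) =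
        ((j : ℂ) + 1) * ∑ i ∈ Icc 1 k, d i * q (j + 1) (k - i) := by
      calc ∑ i ∈ Icc 1 k, c i * r (j + 1) (k - i)
          = ∑ i ∈ Icc 1 k, ∑ m ∈ Icc 1 (k - i), c i * (d m * q j (k - i - m)) := by
            refine Finset.sum_congr rfl fun i _ => ?_
            rw [ih, Finset.mul_sum]
        _ = ∑ m ∈ Icc 1 k, ∑ i ∈ Icc 1 (k - m), c i * (d m * q j (k - i - m)) :=
            swap_sum k _
        _ = ∑ m ∈ Icc 1 k, ((j : ℂ) + 1) * (d m * q (j + 1) (k - m)) := by
            refine Finset.sum_congr rfl fun m _ => ?_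
            rw [hq]
            have hj : ((j : ℂ) + 1) ≠ 0 := by exact_mod_cast Nat.succ_ne_zero j
            have e : ∑ i ∈ Icc 1 (k - m), c i * (d m * q j (k - i - m)) =
                d m * ∑ i ∈ Icc 1 (k - m), c i * q j (k - m - i) := by
              rw [Finset.mul_sum]
              refine Finset.sum_congr rfl fun i _ => ?_
              rw [show k - i - m = k - m - i by omega]
              ring
            rw [e]
            field_simp
        _ = _ := by rw [Finset.mul_sum]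
    rw [h1]
    have hj : ((j : ℂ) + 1 + 1) ≠ 0 := by exact_mod_cast Nat.succ_ne_zero (j + 1)
    push_cast
    field_simp
    ring

/-- the Euler identity -/
theorem euler (c : ℕ → C2 → ℂ) (p : C2) (j k : ℕ) :
    (k : ℂ) * qf c (j + 1) k p = ∑ i ∈ Icc 1 k, ((i : ℂ) * c i p) * qf c j (k - i) p := by
  refine deriv_pow (c := fun i => c i p) (d := fun i => (i : ℂ) * c i p)
    (q := fun j k => qf c j k p) (r := fun j k => (k : ℂ) * qf c j k p) ?_ ?_ ?_ j k
  · intro j k
    rfl
  · intro k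
    show (k : ℂ) * (if k = 0 then 1 else 0) = 0
    split
    · next h => rw [h]; simp
    · simp
  · intro j k
    show (k : ℂ) * ((1 / ((j : ℂ) + 1)) * ∑ i ∈ Icc 1 k, c i p * qf c j (k - i) p) = _
    rw [mul_left_comm, Finset.mul_sum]
    congr 1
    refine Finset.sum_congr rfl fun i hi => ?_
    have h1 : i ≤ k := (Finset.mem_Icc.1 hi).2
    show (k : ℂ) * (c i p * qf c j (k - i) p) = (i : ℂ) * c i p * qf c j (k - i) p +
      c i p * (((k - i : ℕ) : ℂ) * qf c j (k - i) p)
    push_cast [h1]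
    ring

theorem qf_diff (c : ℕ → C2 → ℂ) (p : C2) (hc : ∀ k, DifferentiableAt ℝ (c k) p) :
    ∀ j k, DifferentiableAt ℝ (qf c j k) p := by
  intro j
  induction j with
  | zero =>
    intro k
    exact differentiableAt_const _
  | succ j ih =>
    intro k
    have h1 : DifferentiableAt ℝ (fun p => ∑ i ∈ Icc 1 k, c i p * qf c j (k - i) p) p :=
      DifferentiableAt.fun_sum fun i _ => (hc i).mul (ih (k - i))
    exact (differentiableAt_const _).mul h1

theorem dzb_const (i : Fin 2) (a : ℂ) (p : C2) : dzb i (fun _ : C2 => a) p = 0 := by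
  unfold dzb
  rw [fderiv_const_apply]
  simp

theorem dzb_mul (i : Fin 2) {u v : C2 → ℂ} {p : C2} (hu : DifferentiableAt ℝ u p)
    (hv : DifferentiableAt ℝ v p) :
    dzb i (fun q => u q * v q) p = dzb i u p * v p + u p * dzb i v p := by
  unfold dzb
  rw [fderiv_fun_mul hu hv]
  simp only [add_apply, smul_apply, smul_eq_mul]
  ring

theorem dzb_sum (i : Fin 2) {s : Finset ℕ} {u : ℕ → C2 → ℂ} {p : C2}
    (hu : ∀ m ∈ s, DifferentiableAt ℝ (u m) p) :
    dzb i (fun q => ∑ m ∈ s, u m q) p = ∑ m ∈ s, dzb i (u m) p := by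
  unfold dzb
  rw [fderiv_fun_sum hu]
  simp only [_root_.sum_apply, smul_eq_mul, Finset.mul_sum, ← Finset.sum_add_distrib]

theorem qf_dzb (c : ℕ → C2 → ℂ) (p : C2) (hc : ∀ k, DifferentiableAt ℝ (c k) p) (i : Fin 2)
    (j k : ℕ) :
    dzb i (qf c (j + 1) k) p = ∑ l ∈ Icc 1 k, dzb i (c l) p * qf c j (k - l) p := by
  have hd := qf_diff c p hc
  refine deriv_pow (c := fun l => c l p) (d := fun l => dzb i (c l) p)
    (q := fun j k => qf c j k p) (r := fun j k => dzb i (qf c j k) p) ?_ ?_ ?_ j k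
  · intro j k
    rfl
  · intro k
    exact dzb_const i _ p
  · intro j k
    have h1 : dzb i (qf c (j + 1) k) p =
        dzb i (fun q => (1 / ((j : ℂ) + 1)) * ∑ l ∈ Icc 1 k, c l q * qf c j (k - l) q) p := rfl
    show dzb i (qf c (j + 1) k) p = _
    have h2 : DifferentiableAt ℝ (fun q => ∑ l ∈ Icc 1 k, c l q * qf c j (k - l) q) p :=
      DifferentiableAt.fun_sum fun l _ => (hc l).mul (hd j (k - l))
    have h3 := dzb_mul i (u := fun _ => (1 / ((j : ℂ) + 1))) (differentiableAt_const _) h2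
    rw [h1, h3, dzb_const, zero_mul, zero_add,
      dzb_sum i (u := fun l q => c l q * qf c j (k - l) q) fun l _ => (hc l).mul (hd j (k - l))]
    congr 1
    refine Finset.sum_congr rfl fun l _ => ?_
    exact dzb_mul i (hc l) (hd j (k - l))

theorem qf_zero (c : ℕ → C2 → ℂ) (p : C2) : ∀ j k, k < j → qf c j k p = 0 := by
  intro j
  induction j with
  | zero => intro k hk; omega
  | succ j ih =>
    intro k hk
    show (1 / ((j : ℂ) + 1)) * ∑ i ∈ Icc 1 k, c i p * qf c j (k - i) p = 0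
    rw [Finset.sum_eq_zero, mul_zero]
    intro i hi
    rw [ih (k - i) (by have := Finset.mem_Icc.1 hi; omega), mul_zero]

/-- F5a -/
theorem f5a : F5aStmt := by
  intro ρ c p hc
  refine ⟨qf_zero c p, qf_diff c p hc, ?_⟩
  intro j k i
  -- the sum of the right hand side
  have hR : ∑ l ∈ Finset.range (k + 1), Dk ρ c l i p * qf c j (k - l) p =
      Dk ρ c 0 i p * qf c j k p + ∑ l ∈ Icc 1 k, Dk ρ c l i p * qf c j (k - l) p := by
    rw [Finset.sum_range_succ', add_comm]
    congr 1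
    rw [Finset.range_eq_Ico, Finset.sum_Ico_add' (fun l => Dk ρ c l i p * qf c j (k - l) p) 0 k 1]
    congr 1
  have hT : ∑ l ∈ Icc 1 k, Dk ρ c l i p * qf c j (k - l) p =
      ∑ l ∈ Icc 1 k, dzb i (c l) p * qf c j (k - l) p +
      fC ρ i p * ∑ l ∈ Icc 1 k, ((l : ℂ) + 1) * c (l + 1) p * qf c j (k - l) p +
      (fE ρ i p - fA ρ i p) * ∑ l ∈ Icc 1 k, ((l : ℂ) * c l p) * qf c j (k - l) p -
      fB ρ i p * ∑ l ∈ Icc 1 k, (((l - 1 : ℕ) : ℂ) * c (l - 1) p) * qf c j (k - l) p +
      fB ρ i p * ∑ l ∈ Icc 1 k, (if l = 1 then qf c j (k - l) p else 0) := by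
    rw [Finset.mul_sum, Finset.mul_sum, Finset.mul_sum, Finset.mul_sum,
      ← Finset.sum_add_distrib, ← Finset.sum_add_distrib, ← Finset.sum_sub_distrib,
      ← Finset.sum_add_distrib]
    refine Finset.sum_congr rfl fun l hl => ?_
    have hl1 : l ≠ 0 := by have := (Finset.mem_Icc.1 hl).1; omega
    unfold Dk
    rw [if_neg hl1]
    split
    · ring
    · ring
  -- the C terms
  have hC : ((k : ℂ) + 1) * qf c (j + 1) (k + 1) p = c 1 p * qf c j k p +
      ∑ l ∈ Icc 1 k, ((l : ℂ) + 1) * c (l + 1) p * qf c j (k - l) p := by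
    have h1 := euler c p j (k + 1)
    push_cast at h1
    rw [h1]
    have h2 : Icc 1 (k + 1) = insert 1 (Icc 2 (k + 1)) := by
      ext x
      simp only [Finset.mem_insert, Finset.mem_Icc]
      omega
    rw [h2, Finset.sum_insert (by simp)]
    congr 1
    · simp
    · have h3 : ∑ l ∈ Icc 1 k, ((l : ℂ) + 1) * c (l + 1) p * qf c j (k - l) p =
          ∑ l ∈ Ico 1 (k + 1), (((l + 1 : ℕ) : ℂ) * c (l + 1) p) * qf c j (k + 1 - (l + 1)) p := by
        refine Finset.sum_congr (by ext x; simp only [Finset.mem_Icc, Finset.mem_Ico]; omega)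
          fun l _ => ?_
        rw [show k + 1 - (l + 1) = k - l by omega]
        push_cast
        rfl
      rw [h3, Finset.sum_Ico_add' (fun l : ℕ => ((l : ℂ) * c l p) * qf c j (k + 1 - l) p) 1 (k + 1) 1]
      refine Finset.sum_congr (by ext x; simp only [Finset.mem_Icc, Finset.mem_Ico]; omega)
        fun l _ => rfl
  rw [hR, hT, ← qf_dzb c p hc i j k, ← euler c p j k]
  rcases Nat.eq_zero_or_pos k with rfl | hk
  · rw [if_pos rfl]
    simp only [Finset.Icc_eq_empty_of_lt (show 0 < 1 by norm_num), Finset.sum_empty] at hC ⊢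
    simp only [mul_zero, add_zero, sub_zero]
    push_cast at hC ⊢
    linear_combination fC ρ i p * hC
  · rw [if_neg hk.ne']
    have hB1 : ∑ l ∈ Icc 1 k, (if l = 1 then qf c j (k - l) p else 0) = qf c j (k - 1) p := by
      rw [Finset.sum_ite_eq' (Icc 1 k) 1 (fun l => qf c j (k - l) p),
        if_pos (Finset.mem_Icc.2 ⟨le_rfl, hk⟩)]
    have hB2 : ∑ l ∈ Icc 1 k, (((l - 1 : ℕ) : ℂ) * c (l - 1) p) * qf c j (k - l) p =
        ((k : ℂ) - 1) * qf c (j + 1) (k - 1) p := by
      have h1 := euler c p j (k - 1)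
      have h2 : (((k - 1 : ℕ) : ℕ) : ℂ) = (k : ℂ) - 1 := by push_cast [hk]; ring
      rw [h2] at h1
      rw [h1]
      have h3 : ∑ i ∈ Icc 1 (k - 1), ((i : ℂ) * c i p) * qf c j (k - 1 - i) p =
          ∑ i ∈ Ico 0 k, ((i : ℂ) * c i p) * qf c j (k - 1 - i) p := by
        have h4 : Ico 0 k = insert 0 (Icc 1 (k - 1)) := by
          ext x
          simp only [Finset.mem_insert, Finset.mem_Icc, Finset.mem_Ico]
          omega
        rw [h4, Finset.sum_insert (by simp)]
        simp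
      rw [h3]
      have h5 : ∑ l ∈ Icc 1 k, (((l - 1 : ℕ) : ℂ) * c (l - 1) p) * qf c j (k - l) p =
          ∑ l ∈ Ico (0 + 1) (k + 1), (((l - 1 : ℕ) : ℂ) * c (l - 1) p) * qf c j (k - l) p := by
        refine Finset.sum_congr (by ext x; simp only [Finset.mem_Icc, Finset.mem_Ico]; omega)
          fun l _ => rfl
      rw [h5, ← Finset.sum_Ico_add' (fun l : ℕ => (((l - 1 : ℕ) : ℂ) * c (l - 1) p) *
        qf c j (k - l) p) 0 k 1]
      refine Finset.sum_congr rfl fun l hl => ?_
      rw [Nat.add_sub_cancel, show k - (l + 1) = k - 1 - l by omega]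
    rw [hB1, hB2]
    linear_combination fC ρ i p * hC

end Pool.Agent.AK.H54
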